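import Mathlib

/-!
# Beta sets, cores and a Bessel inequality

`X` is a finite set of naturals (a beta set).  `hk X t` is the number of hooks divisible by `t`.
-/

open Finset

namespace Pool.Agent.Helper33.ZN

/-- number of elements of `X` in a residue class -/
def cnt (X : Finset ℕ) (t : ℕ) (ρ : ZMod t) : ℕ := (X.filter (fun x : ℕ => (x : ZMod t) = ρ)).card

/-- deviation from equidistribution -/
noncomputable def D (X : Finset ℕ) (t : ℕ) (ρ : ZMod t) : ℝ := cnt X t ρ - (X.card : ℝ) / t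

/-- hooks divisible by `t` -/
def hk (X : Finset ℕ) (t : ℕ) : ℕ :=
  ∑ x ∈ X, ((range x).filter (fun z => z ∉ X ∧ t ∣ x - z)).card

theorem sum_cnt (X : Finset ℕ) (t : ℕ) [NeZero t] : ∑ ρ : ZMod t, cnt X t ρ = X.card := by
  unfold cnt
  rw [← card_eq_sum_card_fiberwise (f := fun x : ℕ => (x : ZMod t)) (t := univ)]
  intro x _
  simp

theorem sum_D (X : Finset ℕ) (t : ℕ) [NeZero t] : ∑ ρ : ZMod t, D X t ρ = 0 := by
  unfold D
  rw [sum_sub_distrib, ← Nat.cast_sum, sum_cnt, sum_const, card_univ, ZMod.card, nsmul_eq_mul]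
  have : (t : ℝ) ≠ 0 := by exact_mod_cast (NeZero.ne t)
  field_simp
  ring

theorem sum_D_sq (X : Finset ℕ) (t : ℕ) [NeZero t] :
    (t : ℝ) * ∑ ρ : ZMod t, (D X t ρ) ^ 2
      = t * ∑ ρ : ZMod t, (cnt X t ρ : ℝ) ^ 2 - (X.card : ℝ) ^ 2 := by
  have h1 : ∑ ρ : ZMod t, (cnt X t ρ : ℝ) = X.card := by exact_mod_cast sum_cnt X t
  have ht : (t : ℝ) ≠ 0 := by exact_mod_cast (NeZero.ne t)
  have h2 : ∀ ρ : ZMod t, (D X t ρ) ^ 2 = (cnt X t ρ : ℝ) ^ 2 - 2 * ((X.card : ℝ) / t) * cnt X t ρ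
      + ((X.card : ℝ) / t) ^ 2 := by
    intro ρ; unfold D; ring
  simp_rw [h2]
  rw [sum_add_distrib, sum_sub_distrib, ← mul_sum, h1, sum_const, card_univ, ZMod.card,
    nsmul_eq_mul]
  field_simp
  ring

theorem sum_val (t : ℕ) [NeZero t] : ∑ ρ : ZMod t, (ρ.val : ℝ) = t * (t - 1) / 2 := by
  have h : ∑ ρ : ZMod t, ρ.val = ∑ i ∈ range t, i := by
    obtain ⟨s, rfl⟩ : ∃ s, t = s + 1 := ⟨t - 1, by have := NeZero.pos t; omega⟩
    change ∑ ρ : Fin (s + 1), ρ.val = _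
    rw [Fin.sum_univ_eq_sum_range (fun i => i)]
  have h2 := Finset.sum_range_id_mul_two t
  have h3 : (1 : ℕ) ≤ t := NeZero.pos t
  have h4 : ((∑ i ∈ range t, i : ℕ) : ℝ) * 2 = t * (t - 1) := by
    have := congrArg (Nat.cast : ℕ → ℝ) h2
    push_cast [Nat.cast_sub h3] at this ⊢
    exact this
  have h5 : ∑ ρ : ZMod t, (ρ.val : ℝ) = ((∑ i ∈ range t, i : ℕ) : ℝ) := by
    rw [← h]; push_cast; rfl
  rw [h5]
  linarith

theorem sum_val_cnt (X : Finset ℕ) (t : ℕ) [NeZero t] :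
    ∑ ρ : ZMod t, (ρ.val : ℝ) * cnt X t ρ = ∑ ρ : ZMod t, (ρ.val : ℝ) * D X t ρ
      + (X.card : ℝ) * (t - 1) / 2 := by
  have ht : (t : ℝ) ≠ 0 := by exact_mod_cast (NeZero.ne t)
  unfold D
  simp_rw [mul_sub]
  rw [sum_sub_distrib, ← sum_mul, sum_val]
  field_simp
  ring

/-- `∑ x % t = ∑ ρ.val * cnt ρ` -/
theorem sum_mod (X : Finset ℕ) (t : ℕ) [NeZero t] :
    ∑ x ∈ X, x % t = ∑ ρ : ZMod t, ρ.val * cnt X t ρ := by
  classical
  rw [← Finset.sum_fiberwise_of_maps_to (s := X) (t := (univ : Finset (ZMod t)))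
    (g := fun x : ℕ => (x : ZMod t)) (fun x _ => mem_univ _)]
  apply sum_congr rfl
  intro ρ _
  unfold cnt
  rw [mul_comm, ← smul_eq_mul, ← sum_const]
  apply sum_congr rfl
  intro x hx
  rw [mem_filter] at hx
  rw [← hx.2, ZMod.val_natCast]

theorem sum_div (X : Finset ℕ) (t : ℕ) [NeZero t] :
    t * ∑ x ∈ X, x / t + ∑ ρ : ZMod t, ρ.val * cnt X t ρ = ∑ x ∈ X, x := by
  rw [← sum_mod, mul_sum, ← sum_add_distrib]
  apply sum_congr rfl
  intro x _
  exact Nat.div_add_mod x t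

/-- pairs -/
def pr (X : Finset ℕ) (t : ℕ) : ℕ :=
  ∑ x ∈ X, (X.filter (fun z => z < x ∧ t ∣ x - z)).card

theorem card_dvd (x t : ℕ) (ht : 0 < t) :
    ((range x).filter (fun z => t ∣ x - z)).card = x / t := by
  have h := Nat.count_modEq_card x ht x
  rw [if_neg (lt_irrefl _), add_zero] at h
  rw [← h, Nat.count_eq_card_filter_range]
  congr 1
  apply filter_congr
  intro z hz
  rw [mem_range] at hz
  exact (Nat.modEq_iff_dvd' hz.le).symm

theorem hk_add_pr (X : Finset ℕ) (t : ℕ) (ht : 0 < t) : hk X t + pr X t = ∑ x ∈ X, x / t := by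
  unfold hk pr
  rw [← sum_add_distrib]
  apply sum_congr rfl
  intro x _
  rw [← card_dvd x t ht]
  rw [← card_union_of_disjoint]
  · congr 1
    ext z
    simp only [mem_union, mem_filter, mem_range]
    tauto
  · rw [disjoint_left]
    intro z hz hz'
    rw [mem_filter] at hz hz'
    exact hz.2.1 hz'.1

theorem two_pr (X : Finset ℕ) (t : ℕ) [NeZero t] :
    2 * pr X t + X.card = ∑ ρ : ZMod t, (cnt X t ρ) ^ 2 := by
  classical
  -- number of ordered pairs of congruent elements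
  have h1 : ∑ ρ : ZMod t, (cnt X t ρ) ^ 2
      = ∑ x ∈ X, (X.filter (fun z : ℕ => (z : ZMod t) = (x : ZMod t))).card := by
    rw [← Finset.sum_fiberwise_of_maps_to (s := X) (t := (univ : Finset (ZMod t)))
      (g := fun x : ℕ => (x : ZMod t)) (fun x _ => mem_univ _)]
    apply sum_congr rfl
    intro ρ _
    have : ∀ x ∈ X.filter (fun x : ℕ => (x : ZMod t) = ρ),
        (X.filter (fun z : ℕ => (z : ZMod t) = (x : ZMod t))).card = cnt X t ρ := by
      intro x hx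
      rw [mem_filter] at hx
      rw [hx.2]
      rfl
    rw [sum_congr rfl this, sum_const, smul_eq_mul, sq]
    rfl
  have h2 : ∀ x ∈ X, (X.filter (fun z : ℕ => (z : ZMod t) = (x : ZMod t))).card
      = (X.filter (fun z => z < x ∧ t ∣ x - z)).card + 1
        + (X.filter (fun z => x < z ∧ t ∣ z - x)).card := by
    intro x hx
    have e : X.filter (fun z : ℕ => (z : ZMod t) = (x : ZMod t))
        = (X.filter (fun z => z < x ∧ t ∣ x - z) ∪ {x}) ∪
          X.filter (fun z => x < z ∧ t ∣ z - x) := by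
      ext z
      simp only [mem_union, mem_filter, mem_singleton]
      constructor
      · rintro ⟨hz, hzx⟩
        rw [ZMod.natCast_eq_natCast_iff] at hzx
        rcases lt_trichotomy z x with h | h | h
        · left; left
          exact ⟨hz, h, (Nat.modEq_iff_dvd' h.le).1 hzx⟩
        · left; right; exact h
        · right
          exact ⟨hz, h, (Nat.modEq_iff_dvd' h.le).1 hzx.symm⟩
      · rintro ((⟨hz, h, hd⟩ | h) | ⟨hz, h, hd⟩)
        · refine ⟨hz, ?_⟩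
          rw [ZMod.natCast_eq_natCast_iff]
          exact (Nat.modEq_iff_dvd' h.le).2 hd
        · subst h
          exact ⟨hx, rfl⟩
        · refine ⟨hz, ?_⟩
          rw [ZMod.natCast_eq_natCast_iff]
          exact ((Nat.modEq_iff_dvd' h.le).2 hd).symm
    rw [e, card_union_of_disjoint, card_union_of_disjoint, card_singleton]
    · rw [disjoint_left]
      intro z hz hz'
      rw [mem_filter] at hz
      rw [mem_singleton] at hz'
      omega
    · rw [disjoint_left]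
      intro z hz hz'
      rw [mem_union, mem_filter, mem_singleton] at hz
      rw [mem_filter] at hz'
      omega
  have h3 : ∑ x ∈ X, (X.filter (fun z => x < z ∧ t ∣ z - x)).card = pr X t := by
    unfold pr
    simp_rw [card_filter]
    rw [sum_comm]
  rw [h1, sum_congr rfl h2, sum_add_distrib, sum_add_distrib, h3, sum_const, smul_eq_mul, mul_one]
  unfold pr
  ring

/-- The main identity: size of the `t`-core. -/
theorem core_identity (X : Finset ℕ) (n t : ℕ) [NeZero t]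
    (hX : ∑ x ∈ X, (x : ℝ) = n + (X.card : ℝ) * (X.card - 1) / 2) :
    2 * (t : ℝ) * hk X t = 2 * n - t * ∑ ρ : ZMod t, (D X t ρ) ^ 2
      - 2 * ∑ ρ : ZMod t, (ρ.val : ℝ) * D X t ρ := by
  have h1 : (hk X t : ℝ) + pr X t = ∑ x ∈ X, ((x / t : ℕ) : ℝ) := by
    exact_mod_cast hk_add_pr X t (NeZero.pos t)
  have h2 : 2 * (pr X t : ℝ) + X.card = ∑ ρ : ZMod t, (cnt X t ρ : ℝ) ^ 2 := by
    exact_mod_cast two_pr X t
  have h3 : (t : ℝ) * ∑ x ∈ X, ((x / t : ℕ) : ℝ) + ∑ ρ : ZMod t, (ρ.val : ℝ) * cnt X t ρ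
      = ∑ x ∈ X, (x : ℝ) := by
    have h := congrArg (Nat.cast : ℕ → ℝ) (sum_div X t)
    push_cast at h ⊢
    exact h
  have h4 := sum_D_sq X t
  have h5 := sum_val_cnt X t
  have e1 : (hk X t : ℝ) = ∑ x ∈ X, ((x / t : ℕ) : ℝ) - pr X t := by linarith
  rw [e1]
  have e2 : 2 * (t : ℝ) * (∑ x ∈ X, ((x / t : ℕ) : ℝ) - pr X t)
      = 2 * (t * ∑ x ∈ X, ((x / t : ℕ) : ℝ)) - t * (2 * pr X t) := by ring
  rw [e2]
  have e3 : (t : ℝ) * ∑ x ∈ X, ((x / t : ℕ) : ℝ) = n + (X.card : ℝ) * (X.card - 1) / 2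
      - (∑ ρ : ZMod t, (ρ.val : ℝ) * D X t ρ + (X.card : ℝ) * (t - 1) / 2) := by
    rw [← hX, ← h5]; linarith
  have e4 : 2 * (pr X t : ℝ) = ∑ ρ : ZMod t, (cnt X t ρ : ℝ) ^ 2 - X.card := by linarith
  rw [e3, e4]
  have e5 : (t : ℝ) * ∑ ρ : ZMod t, (D X t ρ) ^ 2 = t * ∑ ρ : ZMod t, (cnt X t ρ : ℝ) ^ 2
      - (X.card : ℝ) ^ 2 := h4
  rw [e5]
  ring

/-- Bessel inequality for matrices with vanishing total sum. -/
theorem bessel_matrix {A B : Type*} [Fintype A] [Fintype B] [Nonempty A] [Nonempty B]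
    (M : A → B → ℝ) (h0 : ∑ a, ∑ b, M a b = 0) :
    (Fintype.card A : ℝ) * ∑ a, (∑ b, M a b) ^ 2 + Fintype.card B * ∑ b, (∑ a, M a b) ^ 2
      ≤ Fintype.card A * Fintype.card B * ∑ a, ∑ b, (M a b) ^ 2 := by
  set α : ℝ := (Fintype.card A : ℝ) with hα
  set β : ℝ := (Fintype.card B : ℝ) with hβ
  have hα0 : 0 < α := by rw [hα]; exact_mod_cast Fintype.card_pos
  have hβ0 : 0 < β := by rw [hβ]; exact_mod_cast Fintype.card_pos
  set R : A → ℝ := fun a => ∑ b, M a b with hR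
  set C : B → ℝ := fun b => ∑ a, M a b with hC
  have hR0 : ∑ a, R a = 0 := h0
  have hC0 : ∑ b, C b = 0 := by rw [hC, sum_comm]; exact h0
  have hpos : 0 ≤ ∑ a, ∑ b, (M a b - R a / β - C b / α) ^ 2 :=
    sum_nonneg fun a _ => sum_nonneg fun b _ => sq_nonneg _
  have hexp : ∑ a, ∑ b, (M a b - R a / β - C b / α) ^ 2
      = ∑ a, ∑ b, (M a b) ^ 2 - (∑ a, R a ^ 2) / β - (∑ b, C b ^ 2) / α := by
    have e : ∀ a b, (M a b - R a / β - C b / α) ^ 2 = (M a b) ^ 2 + (R a) ^ 2 / β ^ 2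
        + (C b) ^ 2 / α ^ 2 - 2 / β * (R a * M a b) - 2 / α * (C b * M a b)
        + 2 / (α * β) * (R a * C b) := by
      intro a b; field_simp; ring
    simp_rw [e]
    simp only [sum_add_distrib, sum_sub_distrib]
    have s1 : ∑ a : A, ∑ b : B, (R a) ^ 2 / β ^ 2 = (∑ a, R a ^ 2) / β := by
      simp only [sum_const, card_univ, nsmul_eq_mul]
      rw [← mul_sum, ← Finset.sum_div, ← hβ]
      field_simp
    have s2 : ∑ a : A, ∑ b : B, (C b) ^ 2 / α ^ 2 = (∑ b, C b ^ 2) / α := by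
      simp only [sum_const, card_univ, nsmul_eq_mul]
      rw [← Finset.sum_div, ← hα]
      field_simp
    have s3 : ∑ a : A, ∑ b : B, 2 / β * (R a * M a b) = 2 / β * ∑ a, R a ^ 2 := by
      rw [mul_sum]
      apply sum_congr rfl
      intro a _
      rw [← mul_sum, ← mul_sum, sq]
    have s4 : ∑ a : A, ∑ b : B, 2 / α * (C b * M a b) = 2 / α * ∑ b, C b ^ 2 := by
      rw [sum_comm, mul_sum]
      apply sum_congr rfl
      intro b _
      rw [← mul_sum, ← mul_sum, sq]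
    have s5 : ∑ a : A, ∑ b : B, 2 / (α * β) * (R a * C b) = 0 := by
      simp_rw [← mul_sum]
      rw [hC0]
      simp
    rw [s1, s2, s3, s4, s5]
    field_simp
    ring
  rw [hexp] at hpos
  have : 0 ≤ α * β * (∑ a, ∑ b, (M a b) ^ 2 - (∑ a, R a ^ 2) / β - (∑ b, C b ^ 2) / α) := by
    positivity
  have e2 : α * β * (∑ a, ∑ b, (M a b) ^ 2 - (∑ a, R a ^ 2) / β - (∑ b, C b ^ 2) / α)
      = α * β * ∑ a, ∑ b, (M a b) ^ 2 - α * ∑ a, R a ^ 2 - β * ∑ b, C b ^ 2 := by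
    field_simp
  rw [e2] at this
  linarith

end Pool.Agent.Helper33.ZN
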