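import Mathlib
import Pool.Agent.Helper33.ZN.NT

open Finset

namespace Pool.Agent.Helper33.ZN

noncomputable def S (X : Finset ℕ) (t : ℕ) : ℝ := ∑ r ∈ range t, (D X t (r : ZMod t)) ^ 2
noncomputable def L (X : Finset ℕ) (t : ℕ) : ℝ := ∑ r ∈ range t, (r : ℝ) * D X t (r : ZMod t)
noncomputable def A (X : Finset ℕ) (t : ℕ) : ℝ := ∑ r ∈ range t, |D X t (r : ZMod t)|

theorem sum_zmod (t : ℕ) [NeZero t] (f : ZMod t → ℝ) :
    ∑ ρ : ZMod t, f ρ = ∑ r ∈ range t, f (r : ZMod t) := by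
  refine Finset.sum_bij' (s := univ) (t := range t) (fun (ρ : ZMod t) _ => ρ.val)
    (fun (r : ℕ) _ => (r : ZMod t)) ?_ ?_ ?_ ?_ ?_
  · intro ρ _; exact mem_range.2 (ZMod.val_lt ρ)
  · intro r _; exact mem_univ _
  · intro ρ _; exact ZMod.natCast_zmod_val ρ
  · intro r hr; exact ZMod.val_cast_of_lt (mem_range.1 hr)
  · intro ρ _; rw [ZMod.natCast_zmod_val]

theorem core_id (X : Finset ℕ) (n t : ℕ) (ht : 0 < t)
    (hX : ∑ x ∈ X, (x : ℝ) = n + (X.card : ℝ) * (X.card - 1) / 2) :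
    2 * (t : ℝ) * hk X t = 2 * n - t * S X t - 2 * L X t := by
  have : NeZero t := ⟨ht.ne'⟩
  have h := core_identity X n t hX
  rw [sum_zmod t (fun ρ => (D X t ρ) ^ 2), sum_zmod t (fun ρ => (ρ.val : ℝ) * D X t ρ)] at h
  rw [h]
  unfold S L
  congr 2
  apply sum_congr rfl
  intro r hr
  rw [ZMod.val_cast_of_lt (mem_range.1 hr)]

theorem L_le (X : Finset ℕ) (t : ℕ) : |L X t| ≤ t * A X t := by
  unfold L A
  rw [mul_sum]
  refine (abs_sum_le_sum_abs _ _).trans (sum_le_sum ?_)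
  intro r hr
  rw [abs_mul, Nat.abs_cast]
  exact mul_le_mul_of_nonneg_right (by exact_mod_cast (mem_range.1 hr).le) (abs_nonneg _)

theorem A_nonneg (X : Finset ℕ) (t : ℕ) : 0 ≤ A X t := sum_nonneg fun _ _ => abs_nonneg _

theorem A_sq (X : Finset ℕ) (t : ℕ) : (A X t) ^ 2 ≤ t * S X t := by
  unfold A S
  have h := sq_sum_le_card_mul_sum_sq (s := range t) (f := fun r : ℕ => |D X t (r : ZMod t)|)
  simp only [card_range, sq_abs] at h
  exact h

section two
variable (X : Finset ℕ) (a b : ℕ) [NeZero a] [NeZero b] (hab : a.Coprime b)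

theorem crt_iff (x : ℕ) (r : ZMod a) (s : ZMod b) :
    ((x : ZMod (a * b)) = (ZMod.chineseRemainder hab).symm (r, s)) ↔
      ((x : ZMod a) = r ∧ (x : ZMod b) = s) := by
  rw [RingEquiv.eq_symm_apply, map_natCast]
  constructor
  · intro h
    exact ⟨congrArg Prod.fst h, congrArg Prod.snd h⟩
  · rintro ⟨h1, h2⟩
    exact Prod.ext h1 h2

theorem cnt_row (r : ZMod a) :
    ∑ s : ZMod b, cnt X (a * b) ((ZMod.chineseRemainder hab).symm (r, s)) = cnt X a r := by
  unfold cnt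
  simp_rw [crt_iff a b hab]
  rw [card_eq_sum_card_fiberwise (f := fun x : ℕ => (x : ZMod b)) (t := univ)]
  · apply sum_congr rfl
    intro s _
    rw [filter_filter]
  · intro x _
    simp

theorem cnt_col (s : ZMod b) :
    ∑ r : ZMod a, cnt X (a * b) ((ZMod.chineseRemainder hab).symm (r, s)) = cnt X b s := by
  unfold cnt
  simp_rw [crt_iff a b hab]
  rw [card_eq_sum_card_fiberwise (f := fun x : ℕ => (x : ZMod a)) (t := univ)]
  · apply sum_congr rfl
    intro s _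
    rw [filter_filter]
    congr 1
    apply filter_congr
    intro x _
    tauto
  · intro x _
    simp

theorem D_row (r : ZMod a) :
    ∑ s : ZMod b, D X (a * b) ((ZMod.chineseRemainder hab).symm (r, s)) = D X a r := by
  unfold D
  rw [sum_sub_distrib, ← Nat.cast_sum, cnt_row X a b hab, sum_const, card_univ, ZMod.card,
    nsmul_eq_mul]
  have ha : (a : ℝ) ≠ 0 := by exact_mod_cast (NeZero.ne a)
  have hb : (b : ℝ) ≠ 0 := by exact_mod_cast (NeZero.ne b)
  push_cast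
  field_simp

theorem D_col (s : ZMod b) :
    ∑ r : ZMod a, D X (a * b) ((ZMod.chineseRemainder hab).symm (r, s)) = D X b s := by
  unfold D
  rw [sum_sub_distrib, ← Nat.cast_sum, cnt_col X a b hab, sum_const, card_univ, ZMod.card,
    nsmul_eq_mul]
  have ha : (a : ℝ) ≠ 0 := by exact_mod_cast (NeZero.ne a)
  have hb : (b : ℝ) ≠ 0 := by exact_mod_cast (NeZero.ne b)
  push_cast
  field_simp

theorem sum_crt (f : ZMod (a * b) → ℝ) :
    ∑ ρ : ZMod (a * b), f ρ
      = ∑ r : ZMod a, ∑ s : ZMod b, f ((ZMod.chineseRemainder hab).symm (r, s)) := by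
  rw [← Fintype.sum_prod_type' (f := fun r s => f ((ZMod.chineseRemainder hab).symm (r, s)))]
  exact (Equiv.sum_comp (ZMod.chineseRemainder hab).symm.toEquiv f).symm

include hab in
theorem bessel_two_aux : (a : ℝ) * ∑ r : ZMod a, (D X a r) ^ 2 + b * ∑ s : ZMod b, (D X b s) ^ 2
    ≤ (a * b : ℝ) * ∑ ρ : ZMod (a * b), (D X (a * b) ρ) ^ 2 := by
  have h := bessel_matrix
    (fun (r : ZMod a) (s : ZMod b) => D X (a * b) ((ZMod.chineseRemainder hab).symm (r, s))) (by
      rw [← sum_crt a b hab (fun ρ => D X (a * b) ρ)]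
      exact sum_D X (a * b))
  simp only [D_row X a b hab, D_col X a b hab, ZMod.card] at h
  rw [← sum_crt a b hab (fun ρ => (D X (a * b) ρ) ^ 2)] at h
  exact h

include hab in
theorem A_le_aux : ∑ r : ZMod a, |D X a r| ≤ ∑ ρ : ZMod (a * b), |D X (a * b) ρ| := by
  rw [sum_crt a b hab (fun ρ => |D X (a * b) ρ|)]
  apply sum_le_sum
  intro r _
  rw [← D_row X a b hab r]
  exact abs_sum_le_sum_abs _ _

end two

theorem bessel_two (X : Finset ℕ) (a b : ℕ) (ha : 0 < a) (hb : 0 < b) (hab : a.Coprime b) :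
    (a : ℝ) * S X a + b * S X b ≤ ((a * b : ℕ) : ℝ) * S X (a * b) := by
  have : NeZero a := ⟨ha.ne'⟩
  have : NeZero b := ⟨hb.ne'⟩
  have h := bessel_two_aux X a b hab
  rw [sum_zmod a, sum_zmod b, sum_zmod (a * b)] at h
  unfold S
  push_cast
  exact h

theorem A_le (X : Finset ℕ) (a b : ℕ) (ha : 0 < a) (hb : 0 < b) (hab : a.Coprime b) :
    A X a ≤ A X (a * b) := by
  have : NeZero a := ⟨ha.ne'⟩
  have : NeZero b := ⟨hb.ne'⟩
  have h := A_le_aux X a b hab
  rw [sum_zmod a, sum_zmod (a * b)] at h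
  unfold A
  exact h

theorem S_nonneg (X : Finset ℕ) (t : ℕ) : 0 ≤ S X t := sum_nonneg fun _ _ => sq_nonneg _

theorem bessel (X : Finset ℕ) (P : Finset ℕ) (hP : ∀ p ∈ P, p.Prime) :
    ∑ p ∈ P, (p : ℝ) * S X p ≤ ((∏ p ∈ P, p : ℕ) : ℝ) * S X (∏ p ∈ P, p) := by
  classical
  induction P using Finset.induction_on with
  | empty =>
    simp only [sum_empty, prod_empty]
    have := S_nonneg X 1
    positivity
  | insert q P hq ih =>
    rw [sum_insert hq, prod_insert hq]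
    have h1 := ih (fun p hp => hP p (mem_insert_of_mem hp))
    have hcop : Nat.Coprime q (∏ p ∈ P, p) := by
      apply Nat.Coprime.prod_right
      intro p hp
      rw [Nat.coprime_primes (hP q (mem_insert_self _ _)) (hP p (mem_insert_of_mem hp))]
      rintro rfl
      exact hq hp
    have hpos : 0 < ∏ p ∈ P, p := prod_pos fun p hp => (hP p (mem_insert_of_mem hp)).pos
    have h2 := bessel_two X q (∏ p ∈ P, p) (hP q (mem_insert_self _ _)).pos hpos hcop
    linarith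

theorem A_le_prod (X : Finset ℕ) (P : Finset ℕ) (hP : ∀ p ∈ P, p.Prime) (p : ℕ) (hp : p ∈ P) :
    A X p ≤ A X (∏ p ∈ P, p) := by
  classical
  rw [← mul_prod_erase P (fun p => p) hp]
  apply A_le
  · exact (hP p hp).pos
  · exact prod_pos fun q hq => (hP q (mem_of_mem_erase hq)).pos
  · apply Nat.Coprime.prod_right
    intro q hq
    rw [Nat.coprime_primes (hP p hp) (hP q (mem_of_mem_erase hq))]
    exact (ne_of_mem_erase hq).symm

/-- Lower bound for the number of divisible hooks, weighted over a set of primes. -/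
theorem hooks_lower (X : Finset ℕ) (n : ℕ) (P : Finset ℕ) (hP : ∀ p ∈ P, p.Prime)
    (hX : ∑ x ∈ X, (x : ℝ) = n + (X.card : ℝ) * (X.card - 1) / 2)
    (hn : 4 * (∏ p ∈ P, p) ^ 2 ≤ n) :
    (n : ℝ) * (P.card - 1) - 2 * Real.sqrt n * ((∏ p ∈ P, p : ℕ) + ∑ p ∈ P, (p : ℝ))
      ≤ ∑ p ∈ P, (p : ℝ) * hk X p := by
  classical
  set Q : ℕ := ∏ p ∈ P, p with hQ
  have hQpos : 0 < Q := prod_pos fun p hp => (hP p hp).pos
  have hQc := core_id X n Q hQpos hX
  have hB := bessel X P hP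
  rw [← hQ] at hB
  have hLQ := L_le X Q
  have hAn := A_nonneg X Q
  have hQS : (Q : ℝ) * S X Q ≤ 2 * n + 2 * Q * A X Q := by
    have h1 : 0 ≤ 2 * (Q : ℝ) * hk X Q := by positivity
    have h2 := (abs_le.1 hLQ).1
    nlinarith
  have hA2 := A_sq X Q
  -- A ≤ 2 √n
  have hA : A X Q ≤ 2 * Real.sqrt n := by
    have hs : Real.sqrt n ^ 2 = n := Real.sq_sqrt (Nat.cast_nonneg n)
    have hs0 := Real.sqrt_nonneg (n : ℝ)
    have hq : 2 * (Q : ℝ) ≤ Real.sqrt n := by
      apply Real.le_sqrt_of_sq_le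
      have : ((4 * Q ^ 2 : ℕ) : ℝ) ≤ n := by exact_mod_cast hn
      push_cast at this
      nlinarith
    by_contra hcon
    push Not at hcon
    have h3 : (A X Q) ^ 2 ≤ 2 * Real.sqrt n ^ 2 + Real.sqrt n * A X Q := by
      rw [hs]; nlinarith
    nlinarith
  have hterm : ∀ p ∈ P, (p : ℝ) * hk X p = n - p * S X p / 2 - L X p := by
    intro p hp
    have := core_id X n p (hP p hp).pos hX
    linarith
  rw [sum_congr rfl hterm]
  simp only [sum_sub_distrib, sum_const, nsmul_eq_mul]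
  rw [← Finset.sum_div]
  have hLsum : ∑ p ∈ P, L X p ≤ (∑ p ∈ P, (p : ℝ)) * A X Q := by
    rw [sum_mul]
    apply sum_le_sum
    intro p hp
    refine (le_abs_self _).trans ((L_le X p).trans ?_)
    exact mul_le_mul_of_nonneg_left (A_le_prod X P hP p hp) (by positivity)
  have hsp : 0 ≤ ∑ p ∈ P, (p : ℝ) := sum_nonneg fun p _ => by positivity
  have h5 : (∑ p ∈ P, (p : ℝ)) * A X Q ≤ (∑ p ∈ P, (p : ℝ)) * (2 * Real.sqrt n) :=
    mul_le_mul_of_nonneg_left hA hsp
  have h6 : (Q : ℝ) * A X Q ≤ Q * (2 * Real.sqrt n) :=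
    mul_le_mul_of_nonneg_left hA (by positivity)
  nlinarith

end Pool.Agent.Helper33.ZN
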