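import Mathlib
import Pool.Agent.Helper33.ZN.NT2

open Finset
open scoped Nat

namespace Pool.Agent.Helper33.ZN

/-- product of the hook lengths of the beta set `X` -/
def H (X : Finset ℕ) : ℕ := ∏ x ∈ X, ∏ z ∈ (range x).filter (fun z => z ∉ X), (x - z)

/-- Vandermonde product of the beta set `X` -/
def V (X : Finset ℕ) : ℕ := ∏ x ∈ X, ∏ z ∈ X.filter (fun z => z < x), (x - z)

theorem V_pos (X : Finset ℕ) : 0 < V X := by
  apply prod_pos
  intro x _
  apply prod_pos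
  intro z hz
  have := (mem_filter.1 hz).2
  omega

theorem fact_eq (x : ℕ) : x ! = ∏ z ∈ range x, (x - z) := by
  rw [← Nat.descFactorial_eq_prod_range, Nat.descFactorial_self]

theorem prod_fact (X : Finset ℕ) : ∏ x ∈ X, x ! = V X * H X := by
  unfold V H
  rw [← prod_mul_distrib]
  apply prod_congr rfl
  intro x _
  rw [fact_eq, ← prod_filter_mul_prod_filter_not (range x) (fun z => z ∈ X)]
  congr 1
  apply prod_congr _ (fun _ _ => rfl)
  ext z
  simp only [mem_filter, mem_range]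
  tauto

theorem pow_dvd_H (X : Finset ℕ) (p : ℕ) : p ^ hk X p ∣ H X := by
  unfold hk H
  rw [← prod_pow_eq_pow_sum]
  apply prod_dvd_prod_of_dvd
  intro x _
  have h1 : p ^ ((range x).filter (fun z => z ∉ X ∧ p ∣ x - z)).card
      ∣ ∏ z ∈ (range x).filter (fun z => z ∉ X ∧ p ∣ x - z), (x - z) := by
    rw [← prod_const]
    apply prod_dvd_prod_of_dvd
    intro z hz
    exact (mem_filter.1 hz).2.2
  refine h1.trans (prod_dvd_prod_of_subset _ _ _ ?_)
  intro z hz
  rw [mem_filter] at hz ⊢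
  exact ⟨hz.1, hz.2.1⟩

theorem numeric (m : ℕ) (hm : 1 ≤ m) : ∃ n0 : ℕ, ∀ n ≥ n0, ∀ (X : Fin m → Finset ℕ)
    (d : Fin m → ℕ), (∀ i, d i * H (X i) = n !) →
    (∀ i, ∑ x ∈ X i, x = n + (X i).card * ((X i).card - 1) / 2) → ¬ (n ! ∣ ∏ i, d i) := by
  classical
  -- the primes
  have hinf : {p : ℕ | p.Prime ∧ 2 * m ^ 2 < p}.Infinite := by
    have h := Nat.infinite_setOfPred_prime.sdiff (Set.finite_le_nat (2 * m ^ 2))
    refine h.mono ?_
    intro p hp
    exact ⟨hp.1, not_le.1 hp.2⟩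
  obtain ⟨P, hPsub, hPcard⟩ := hinf.exists_subset_card_eq (m + 1)
  have hPr : ∀ p ∈ P, p.Prime := fun p hp => (hPsub hp).1
  have hPlt : ∀ p ∈ P, 2 * m ^ 2 < p := fun p hp => (hPsub hp).2
  set Q : ℕ := ∏ p ∈ P, p with hQ
  set B : ℕ := Q + ∑ p ∈ P, p with hB
  refine ⟨16 * m ^ 2 * B ^ 2 + 1, ?_⟩
  intro n hn X d hd hX hdvd
  have hn1 : 16 * m ^ 2 * B ^ 2 < n := hn
  have hQn : 4 * Q ^ 2 ≤ n := by
    have h1 : Q ^ 2 ≤ B ^ 2 := Nat.pow_le_pow_left (Nat.le_add_right _ _) 2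
    have h2 : 1 ≤ m ^ 2 := Nat.one_le_pow _ _ hm
    nlinarith
  -- lower bounds
  have hlow : ∀ i, (n : ℝ) * m - 2 * Real.sqrt n * B ≤ ∑ p ∈ P, (p : ℝ) * hk (X i) p := by
    intro i
    have hXi : ∑ x ∈ X i, (x : ℝ) = n + ((X i).card : ℝ) * ((X i).card - 1) / 2 := by
      have h := congrArg (Nat.cast : ℕ → ℝ) (hX i)
      push_cast at h
      rw [h]
      congr 1
      have h2 : 2 ∣ (X i).card * ((X i).card - 1) := (Nat.even_mul_pred_self _).two_dvd
      rw [Nat.cast_div h2 (by norm_num)]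
      push_cast
      rcases Nat.eq_zero_or_pos (X i).card with h0 | h0
      · rw [h0]; simp
      · rw [Nat.cast_sub h0]; simp
    have h := hooks_lower (X i) n P hPr hXi hQn
    rw [hPcard] at h
    push_cast at h ⊢
    rw [hB]
    push_cast
    have e : (n : ℝ) * ((m : ℝ) + 1 - 1) = n * m := by ring
    rw [e] at h
    rw [hQ]
    push_cast
    exact h
  -- upper bounds
  have hup : ∀ p ∈ P, (p : ℝ) * ∑ i, (hk (X i) p : ℝ) ≤ (m - 1 : ℝ) * (n + n / (2 * m ^ 2)) := by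
    intro p hp
    have hpp := hPr p hp
    have : Fact p.Prime := ⟨hpp⟩
    have hnf : n ! ≠ 0 := Nat.factorial_ne_zero n
    -- product of hooks
    obtain ⟨c, hc⟩ := hdvd
    have h1 : (∏ i, d i) * ∏ i, H (X i) = (n !) ^ m := by
      rw [← prod_mul_distrib, prod_congr rfl (fun i _ => hd i), prod_const, card_univ,
        Fintype.card_fin]
    have h2 : c * ∏ i, H (X i) = (n !) ^ (m - 1) := by
      rw [hc] at h1
      have h3 : (n !) ^ m = n ! * (n !) ^ (m - 1) := by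
        rw [← pow_succ']
        congr 1
        omega
      rw [h3, mul_assoc] at h1
      exact Nat.eq_of_mul_eq_mul_left (Nat.pos_of_ne_zero hnf) h1
    have h3 : p ^ (∑ i, hk (X i) p) ∣ (n !) ^ (m - 1) := by
      rw [← h2, ← prod_pow_eq_pow_sum]
      exact (prod_dvd_prod_of_dvd _ _ (fun i _ => pow_dvd_H (X i) p)).trans (dvd_mul_left _ _)
    have h4 : ∑ i, hk (X i) p ≤ (m - 1) * padicValNat p (n !) := by
      have h5 := (padicValNat_dvd_iff_le (pow_ne_zero _ hnf)).1 h3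
      rwa [padicValNat.pow] at h5
    have h6 : (p - 1) * padicValNat p (n !) ≤ n := by
      rw [sub_one_mul_padicValNat_factorial]
      exact Nat.sub_le _ _
    set v := padicValNat p (n !) with hv
    have h7 : ((∑ i, hk (X i) p : ℕ) : ℝ) ≤ (m - 1 : ℝ) * v := by
      have := (Nat.cast_le (α := ℝ)).2 h4
      push_cast [Nat.cast_sub hm] at this
      push_cast
      exact this
    have h8 : ((p : ℝ) - 1) * v ≤ n := by
      have := (Nat.cast_le (α := ℝ)).2 h6
      push_cast [Nat.cast_sub hpp.one_le] at this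
      exact this
    have h9 : (2 * m ^ 2 : ℝ) ≤ (p : ℝ) - 1 := by
      have := hPlt p hp
      have h' : 2 * m ^ 2 + 1 ≤ p := this
      have := (Nat.cast_le (α := ℝ)).2 h'
      push_cast at this
      linarith
    have hm0 : (1 : ℝ) ≤ m := by exact_mod_cast hm
    have hv0 : (0 : ℝ) ≤ v := Nat.cast_nonneg _
    have h10 : (v : ℝ) ≤ n / (2 * m ^ 2) := by
      rw [le_div_iff₀ (by positivity)]
      nlinarith
    have h11 : (p : ℝ) * v ≤ n + n / (2 * m ^ 2) := by linarith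
    push_cast at h7
    calc (p : ℝ) * ∑ i, (hk (X i) p : ℝ) ≤ p * ((m - 1 : ℝ) * v) :=
          mul_le_mul_of_nonneg_left h7 (Nat.cast_nonneg _)
      _ = (m - 1 : ℝ) * (p * v) := by ring
      _ ≤ (m - 1 : ℝ) * (n + n / (2 * m ^ 2)) :=
          mul_le_mul_of_nonneg_left h11 (by linarith)
  -- combine
  have hsum : ∑ i, ∑ p ∈ P, (p : ℝ) * hk (X i) p = ∑ p ∈ P, (p : ℝ) * ∑ i, (hk (X i) p : ℝ) := by
    rw [sum_comm]
    apply sum_congr rfl
    intro p _
    rw [mul_sum]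
  have hL : (m : ℝ) * ((n : ℝ) * m - 2 * Real.sqrt n * B) ≤ ∑ i, ∑ p ∈ P, (p : ℝ) * hk (X i) p := by
    have := sum_le_sum (fun i (_ : i ∈ (univ : Finset (Fin m))) => hlow i)
    rw [sum_const, card_univ, Fintype.card_fin, nsmul_eq_mul] at this
    exact this
  have hU : ∑ p ∈ P, (p : ℝ) * ∑ i, (hk (X i) p : ℝ)
      ≤ (m + 1 : ℝ) * ((m - 1 : ℝ) * (n + n / (2 * m ^ 2))) := by
    have := sum_le_sum hup
    rw [sum_const, hPcard, nsmul_eq_mul] at this
    push_cast at this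
    exact this
  rw [hsum] at hL
  have hm0 : (1 : ℝ) ≤ m := by exact_mod_cast hm
  have hs : Real.sqrt n ^ 2 = n := Real.sq_sqrt (Nat.cast_nonneg n)
  have hs0 := Real.sqrt_nonneg (n : ℝ)
  have hB0 : (0 : ℝ) ≤ B := Nat.cast_nonneg _
  have hs4 : 4 * (m : ℝ) * B < Real.sqrt n := by
    apply Real.lt_sqrt_of_sq_lt
    have : ((16 * m ^ 2 * B ^ 2 : ℕ) : ℝ) < n := by exact_mod_cast hn1
    push_cast at this
    nlinarith
  have hsp : 0 < Real.sqrt n := lt_of_le_of_lt (by positivity) hs4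
  have hn0 : (0 : ℝ) < n := by rw [← hs]; positivity
  have e1 : (m + 1 : ℝ) * ((m - 1 : ℝ) * (n + n / (2 * m ^ 2)))
      = (m ^ 2 - 1) * n + n / 2 - n / (2 * m ^ 2) := by
    field_simp
    ring
  have e2 : (0 : ℝ) ≤ n / (2 * m ^ 2) := by positivity
  have e3 : 2 * (m : ℝ) * B * Real.sqrt n < n / 2 := by
    nlinarith
  nlinarith

end Pool.Agent.Helper33.ZN
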