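import Mathlib

open Finset CategoryTheory MonoidalCategory

namespace Pool.Agent.Helper33.ZN

variable {G : Type} [Group G]

theorem char_unit (g : G) : (𝟙_ (FDRep ℂ G)).character g = 1 := by
  have h1 : (𝟙_ (FDRep ℂ G)).ρ g = LinearMap.id := rfl
  unfold FDRep.character
  rw [h1]
  erw [LinearMap.trace_id]
  have h2 : Module.finrank ℂ ↑(𝟙_ (FGModuleCat ℂ)) = 1 := Module.finrank_self ℂ
  erw [h2]
  simp

theorem exists_tensor (m : ℕ) (V : Fin m → FDRep ℂ G) :
    ∃ W : FDRep ℂ G, ∀ g, W.character g = ∏ i, (V i).character g := by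
  induction m with
  | zero => exact ⟨𝟙_ (FDRep ℂ G), fun g => by rw [char_unit]; simp⟩
  | succ m ih =>
    obtain ⟨W, hW⟩ := ih (fun i => V i.castSucc)
    refine ⟨W ⊗ V (Fin.last m), fun g => ?_⟩
    rw [FDRep.char_tensor, Pi.mul_apply, hW, Fin.prod_univ_castSucc]

theorem card_dvd_of_vanish [Fintype G] (m : ℕ) (V : Fin m → FDRep ℂ G)
    (h : ∀ g : G, g ≠ 1 → ∏ i, (V i).character g = 0) :
    Fintype.card G ∣ ∏ i, Module.finrank ℂ (V i) := by
  classical
  obtain ⟨W, hW⟩ := exists_tensor m V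
  have hc : (Nat.card G : ℂ) ≠ 0 := by
    rw [Nat.card_eq_fintype_card]
    exact_mod_cast Fintype.card_ne_zero
  have h1 := FDRep.average_char_eq_finrank_invariants W
  have h2 : ∑ g : G, W.character g = ((∏ i, Module.finrank ℂ (V i) : ℕ) : ℂ) := by
    rw [Finset.sum_eq_single (1 : G)]
    · rw [hW]
      push_cast
      exact prod_congr rfl fun i _ => FDRep.char_one (V i)
    · intro g _ hg
      rw [hW, h g hg]
    · intro h0; exact absurd (mem_univ _) h0
  rw [h2, inv_mul_eq_iff_eq_mul₀ hc] at h1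
  rw [← Nat.card_eq_fintype_card]
  refine ⟨Module.finrank ℂ (Representation.invariants W.ρ), ?_⟩
  exact_mod_cast h1

end Pool.Agent.Helper33.ZN
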