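import Mathlib
import Pool.Agent.Helper33.ZN.NT3
import Pool.Agent.Helper33.ZN.Rep

open Finset CategoryTheory
open scoped Nat

namespace Pool.Agent.Helper33.ZN

/-- The degree formula (statement). -/
def DegreeFormula : Prop :=
  ∀ (n k : ℕ) (_ : 2 * n ≤ k) (V : FDRep ℂ (Equiv.Perm (Fin n))) (_ : Simple V),
    ∃ l : Fin k → ℕ, StrictAnti l ∧ ∑ a, l a = n + k * (k - 1) / 2 ∧
      Module.finrank ℂ V * ∏ a, (l a).factorial
        = n.factorial * ∏ a, ∏ b ∈ Finset.Ioi a, (l a - l b)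

theorem beta_of_degree (hDF : DegreeFormula) (n : ℕ) (V : FDRep ℂ (Equiv.Perm (Fin n)))
    (hV : Simple V) : ∃ X : Finset ℕ, Module.finrank ℂ V * H X = n ! ∧
      ∑ x ∈ X, x = n + X.card * (X.card - 1) / 2 := by
  classical
  obtain ⟨l, hl, hsum, hdeg⟩ := hDF n (2 * n) le_rfl V hV
  have hinj : Function.Injective l := hl.injective
  set X : Finset ℕ := univ.image l with hX
  have hcard : X.card = 2 * n := by
    rw [hX, card_image_of_injective _ hinj, card_univ, Fintype.card_fin]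
  refine ⟨X, ?_, ?_⟩
  · have h1 : ∏ a, (l a).factorial = ZN.V X * H X := by
      rw [← prod_fact, hX, prod_image (fun a _ b _ h => hinj h)]
    have h2 : ∏ a, ∏ b ∈ Finset.Ioi a, (l a - l b) = ZN.V X := by
      unfold ZN.V
      rw [hX, prod_image (fun a _ b _ h => hinj h)]
      apply prod_congr rfl
      intro a _
      have h3 : (univ.image l).filter (fun z => z < l a) = (Finset.Ioi a).image l := by
        ext z
        simp only [mem_filter, mem_image, mem_univ, true_and, mem_Ioi]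
        constructor
        · rintro ⟨⟨b, rfl⟩, hb⟩
          exact ⟨b, hl.lt_iff_gt.1 hb, rfl⟩
        · rintro ⟨b, hb, rfl⟩
          exact ⟨⟨b, rfl⟩, hl hb⟩
      rw [h3, prod_image (fun a _ b _ h => hinj h)]
    rw [h1, h2] at hdeg
    have h4 : ZN.V X * (Module.finrank ℂ V * H X) = ZN.V X * n ! := by
      rw [mul_comm (ZN.V X) (n !), ← hdeg]
      ring
    exact Nat.eq_of_mul_eq_mul_left (V_pos X) h4
  · rw [hcard, ← hsum, hX, sum_image (fun a _ b _ h => hinj h)]

/-- The set of irreducible complex characters of the symmetric group on `n` letters. -/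
def Irr (n : ℕ) : Set (Equiv.Perm (Fin n) → ℂ) :=
  {χ | ∃ V : FDRep ℂ (Equiv.Perm (Fin n)), Simple V ∧ V.character = χ}

theorem main (hDF : DegreeFormula) (m : ℕ) : ∃ n0 : ℕ, ∀ n ≥ n0,
    ¬ ∃ χ : Fin m → (Equiv.Perm (Fin n) → ℂ), (∀ i, χ i ∈ Irr n) ∧
      ∀ σ : Equiv.Perm (Fin n), σ ≠ 1 → ∏ i, χ i σ = 0 := by
  rcases Nat.eq_zero_or_pos m with rfl | hm
  · refine ⟨2, ?_⟩
    rintro n hn ⟨χ, -, h⟩
    have : Nontrivial (Fin n) := Fin.nontrivial_iff_two_le.2 hn
    obtain ⟨σ, hσ⟩ := exists_ne (1 : Equiv.Perm (Fin n))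
    have := h σ hσ
    simp at this
  · obtain ⟨n0, hn0⟩ := numeric m hm
    refine ⟨n0, ?_⟩
    rintro n hn ⟨χ, hχ, h⟩
    choose V hV hVχ using hχ
    have h1 : Fintype.card (Equiv.Perm (Fin n)) ∣ ∏ i, Module.finrank ℂ (V i) := by
      apply card_dvd_of_vanish m V
      intro g hg
      rw [← h g hg]
      exact prod_congr rfl fun i _ => by rw [hVχ i]
    rw [Fintype.card_perm, Fintype.card_fin] at h1
    choose X hX1 hX2 using fun i => beta_of_degree hDF n (V i) (hV i)
    exact hn0 n hn X (fun i => Module.finrank ℂ (V i)) hX1 hX2 h1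

end Pool.Agent.Helper33.ZN
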